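import Pool.Agent.Work.MP_8222c7_an.MainU

/-!
A unital commutative semisimple amenable Banach algebra without the homomorphism property.
-/

set_option autoImplicit false

namespace Pool.Agent.Results.MP_8222c7_an.SemisimpleHom

universe u v

/-- `m : A × E → F` is complex bilinear and bounded. -/
structure BddBilin {A : Type} {E : Type u} {F : Type v} [NormedCommRing A] [NormedAlgebra ℂ A]
    [NormedAddCommGroup E] [NormedSpace ℂ E] [NormedAddCommGroup F] [NormedSpace ℂ F]
    (m : A → E → F) : Prop where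
  add_left : ∀ a b x, m (a + b) x = m a x + m b x
  smul_left : ∀ (c : ℂ) a x, m (c • a) x = c • m a x
  add_right : ∀ a x y, m a (x + y) = m a x + m a y
  smul_right : ∀ (c : ℂ) a x, m a (c • x) = c • m a x
  bdd : ∃ C : ℝ, ∀ a x, ‖m a x‖ ≤ C * ‖a‖ * ‖x‖

/-- `E` is a Banach `A`-bimodule with left action `l a x = a x` and right action
`r a x = x a`. -/
structure Bimodule {A : Type} {E : Type u} [NormedCommRing A] [NormedAlgebra ℂ A]
    [NormedAddCommGroup E] [NormedSpace ℂ E] (l r : A → E → E) : Prop where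
  bddl : BddBilin l
  bddr : BddBilin r
  mull : ∀ a b x, l (a * b) x = l a (l b x)
  mulr : ∀ a b x, r (a * b) x = r b (r a x)
  comm : ∀ a b x, l a (r b x) = r b (l a x)

/-- `a ↦ D a` is a bounded derivation from `A` into the dual of the bimodule `E`, whose actions
are `(a f) x = f (x a)` and `(f a) x = f (a x)`. -/
structure Derivation {A : Type} {E : Type u} [NormedCommRing A] [NormedAlgebra ℂ A]
    [NormedAddCommGroup E] [NormedSpace ℂ E] (l r : A → E → E) (D : A → E → ℂ) : Prop where
  bdd : BddBilin D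
  leibniz : ∀ a b x, D (a * b) x = D b (r a x) + D a (l b x)

/-- `D` is inner: `D a = a f - f a` for some `f` in the dual of `E`. -/
def Inner {A : Type} {E : Type u} [NormedAddCommGroup E] [NormedSpace ℂ E]
    (l r : A → E → E) (D : A → E → ℂ) : Prop :=
  ∃ f : E →L[ℂ] ℂ, ∀ a x, D a x = f (r a x) - f (l a x)

/-- `A` is amenable: every bounded derivation into the dual of a Banach `A`-bimodule (in any
universe `u`) is inner. -/
def Amenable (A : Type) [NormedCommRing A] [NormedAlgebra ℂ A] : Prop :=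
  ∀ (E : Type u) [NormedAddCommGroup E] [NormedSpace ℂ E] [CompleteSpace E]
    (l r : A → E → E) (D : A → E → ℂ), Bimodule l r → Derivation l r D → Inner l r D

/-- the continuous linear map of a bounded bilinear map -/
theorem BddBilin.exists_clm {A : Type} {E : Type u} {F : Type v} [NormedCommRing A] [NormedAlgebra ℂ A]
    [NormedAddCommGroup E] [NormedSpace ℂ E] [NormedAddCommGroup F] [NormedSpace ℂ F]
    {m : A → E → F} (h : BddBilin m) : ∃ M : A →L[ℂ] E →L[ℂ] F, ∀ a x, M a x = m a x := by
  obtain ⟨C, hC⟩ := h.bdd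
  refine ⟨(LinearMap.mk₂ ℂ m h.add_left h.smul_left h.add_right h.smul_right).mkContinuous₂ C
    hC, fun a x => rfl⟩

theorem amenable_of {A : Type} [NormedCommRing A] [NormedAlgebra ℂ A]
    (h : ∀ (E : Type u) [NormedAddCommGroup E] [NormedSpace ℂ E] [CompleteSpace E]
        (l r : A →L[ℂ] (E →L[ℂ] E)),
        (∀ a b : A, l (a * b) = (l a).comp (l b)) →
        (∀ a b : A, r (a * b) = (r b).comp (r a)) →
        (∀ a b : A, (l a).comp (r b) = (r b).comp (l a)) →
        ∀ D : A →L[ℂ] (E →L[ℂ] ℂ),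
          (∀ (a b : A) (x : E), D (a * b) x = D b (r a x) + D a (l b x)) →
          ∃ f : E →L[ℂ] ℂ, ∀ (a : A) (x : E), D a x = f (r a x) - f (l a x)) :
    Amenable.{u} A := by
  intro E _ _ _ l r D hb hD
  obtain ⟨L, hL⟩ := hb.bddl.exists_clm
  obtain ⟨R, hR⟩ := hb.bddr.exists_clm
  obtain ⟨D', hD'⟩ := hD.bdd.exists_clm
  obtain ⟨f, hf⟩ := h E L R
    (fun a b => by
      ext x
      simp only [ContinuousLinearMap.comp_apply, hL, hb.mull])
    (fun a b => by
      ext x
      simp only [ContinuousLinearMap.comp_apply, hR, hb.mulr])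
    (fun a b => by
      ext x
      simp only [ContinuousLinearMap.comp_apply, hL, hR, hb.comm])
    D' (fun a b x => by
      simp only [hL, hR, hD', hD.leibniz])
  refine ⟨f, fun a x => ?_⟩
  rw [← hD', ← hR, ← hL]
  exact hf a x

/-- There are a unital commutative complex Banach algebra `A`, amenable and semisimple, a unital
commutative complex Banach algebra `B` and continuous homomorphisms `φ` (onto) and `ψ` (with
scalar values) from `A` to `B` whose difference takes values in the Jacobson radical of `B`, and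
`φ ≠ ψ`. -/
theorem result :
    ∃ (A : Type) (_ : NormedCommRing A) (_ : NormedAlgebra ℂ A) (_ : CompleteSpace A)
      (B : Type) (_ : NormedCommRing B) (_ : NormedAlgebra ℂ B) (_ : CompleteSpace B)
      (φ ψ : A →ₐ[ℂ] B),
      Amenable.{u} A ∧
      (⊥ : Ideal A).jacobson = ⊥ ∧
      Continuous φ ∧ Continuous ψ ∧ Function.Surjective φ ∧
      (∀ a, ∃ c : ℂ, ψ a = algebraMap ℂ B c) ∧
      (∀ a, φ a - ψ a ∈ (⊥ : Ideal B).jacobson) ∧ φ ≠ ψ := by
  obtain ⟨A, i1, i2, i3, B, j1, j2, j3, φ, ψ, h, h'⟩ := Pool.Hom82.semisimple_univ.{u}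
  exact ⟨A, i1, i2, i3, B, j1, j2, j3, φ, ψ, amenable_of h, h'⟩

end Pool.Agent.Results.MP_8222c7_an.SemisimpleHom
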